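import Pool.Agent.RB.Defs

set_option autoImplicit false

namespace Pool.Agent.RBn

open Finset Equiv Pool.Agent.RB

/-- the count has at most `(k!)^n` terms `± 1` -/
theorem abs_Cf_le {ν : Type} [Fintype ν] [DecidableEq ν] (k : ℕ) (f : ν → Fin k → ν) :
    |Cf k f| ≤ (k.factorial : ℤ) ^ Fintype.card ν := by
  unfold Cf
  refine (Finset.abs_sum_le_sum_abs _ _).trans ?_
  calc ∑ δ : ν → Perm (Fin k), |(∏ s, (Perm.sign (δ s) : ℤ)) *
        ∏ i : Fin k, (if Function.Bijective (fun s => f s (δ s i)) then (1 : ℤ) else 0)|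
      ≤ ∑ _δ : ν → Perm (Fin k), (1 : ℤ) := by
        refine Finset.sum_le_sum fun δ _ => ?_
        rw [abs_mul, Finset.abs_prod, Finset.abs_prod]
        have h1 : ∏ s, |(Perm.sign (δ s) : ℤ)| = 1 :=
          Finset.prod_eq_one fun s _ => Int.isUnit_iff_abs_eq.mp (Units.isUnit _)
        rw [h1, one_mul]
        refine Finset.prod_le_one (fun i _ => abs_nonneg _) fun i _ => ?_
        split_ifs <;> simp
    _ = (k.factorial : ℤ) ^ Fintype.card ν := by
        rw [Finset.sum_const, Finset.card_univ, Fintype.card_fun, Fintype.card_perm, Fintype.card_fin]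
        simp

/-- the count is nonzero in every field whose characteristic is zero or larger than `(k!)^n` -/
theorem cast_ne {F : Type} [Field F] {n k : ℕ} (f : Fin n → Fin k → Fin n) (hf : Cf k f ≠ 0)
    (hF : ringChar F = 0 ∨ k.factorial ^ n < ringChar F) : ((Cf k f : ℤ) : F) ≠ 0 := by
  intro h0
  have h1 := (CharP.intCast_eq_zero_iff F (ringChar F) _).mp h0
  rcases hF with hF | hF
  · rw [hF] at h1
    exact hf (by simpa using h1)
  · apply hf
    refine Int.eq_zero_of_abs_lt_dvd h1 ?_
    have h2 := abs_Cf_le k f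
    rw [Fintype.card_fin] at h2
    refine h2.trans_lt ?_
    exact_mod_cast hF

end Pool.Agent.RBn
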